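import Pool.Agent.H12.OL.Cmp

/-!
# The power law for the two-dimensional N-vector models with the exponent multiplied by `dim SO(N)`

For every exponentially decaying ferromagnetic coupling `J` on `ℤ²`, `N ≥ 3` and `ε > 0` the two
point function is at most `C |x|^(-N(N-1)/((4πσ+ε)β))` for all `β ≥ β₀`, with `C` independent of `β`,
`σ = ½ ∑ J(z)|z|²`. For `σ = 1` (nearest neighbour coupling `J (±e_i) = 1/2`, the energy is a sum over
ordered pairs) the McBryan-Spencer bound has the exponent `1/((2π+ε)β)`; here it is multiplied by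
`N(N-1)/2 = dim SO(N)`.

Proof: the recursions for the moments of the spin in the centre of a ball (see `OneLoopDecay`) show
that beyond the scale `exp (C_ε β)` the second moments are isotropic up to `ε`, and then the
influence of the boundary condition decays with the stated exponent.
-/

set_option autoImplicit false

noncomputable section

namespace Pool.Agent.Results.MP_8be4c0_mp.ImprovedPowerLaw

open MeasureTheory Pool.Agent.H5R2.ON Pool.Agent.H717R2.ON3 Pool.Agent.H983R2.ONJ

/-- `σ = ½ ∑_z J(z) |z|²`; it is `1` for the nearest neighbour coupling `J (±e_i) = 1/2` (the energy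
is a sum over ordered pairs). -/
def sigma (J : ℤ × ℤ → ℝ) : ℝ := 1 / 2 * ∑' z : ℤ × ℤ, J z * znorm z ^ 2

/-- **Improved power law.** Let `J` be any ferromagnetic, exponentially decaying coupling on `ℤ²`,
`N ≥ 3` and `ε > 0`. There are `C` and `β₀` such that for all `β ≥ β₀` the two point function, on
every torus and in every infinite volume limit, is at most
`C |x|^(-N(N-1)/((4πσ+ε)β))`. -/
theorem result (J : ℤ × ℤ → ℝ) (hJ : Admissible J) (N : ℕ) (hN : 3 ≤ N) (ε : ℝ) (hε : 0 < ε) :
    ∃ C β₀ : ℝ, 0 < C ∧ 0 < β₀ ∧ ∀ β : ℝ, β₀ ≤ β →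
      (∀ (L : ℕ) [NeZero L] (x y : Tor L), x ≠ y → |corr N L J β x y| ≤
        C * tnorm (x - y) ^ (-((N : ℝ) * (N - 1) / ((4 * Real.pi * sigma J + ε) * β)))) ∧
      ∀ G : ℤ × ℤ → ℝ, IsLimitCorr N J β G → ∀ x : ℤ × ℤ, x ≠ 0 → |G x| ≤
        C * znorm x ^ (-((N : ℝ) * (N - 1) / ((4 * Real.pi * sigma J + ε) * β))) :=
  Pool.Agent.H12.OL.power_main J hJ N (by omega) ε hε

end Pool.Agent.Results.MP_8be4c0_mp.ImprovedPowerLaw
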