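import Pool.Agent.H12.SH.Fin

/-!
# The mass of the two-dimensional N-vector models for large `N`, with the sharp constant

For every exponentially decaying ferromagnetic coupling `J` on `ℤ²` and every `ε > 0` there are
`K` and `δ > 0` such that for every `N ≥ 3` and every `β > 0` with `β ≤ δ N²` the mass is at least
`exp (-(2πσ + ε) β / N - K (1 + log (1 + log N)))`, where `σ = ½ ∑ J(z)|z|²`. The constant `2πσ` is
sharp: for reflection positive couplings the infrared bounds give the upper bound
`exp (-(2πσ - ε) β / N)` for large `β / N`.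

Proof: Ward identities for the vector of the scores of the rotations `(i, k)`, `k ≠ i`, with
logarithmic profiles of optimal energy, and the Markov property give a recursion for the second
moments `u` of the components of the spin in the centre of a ball, uniformly in the boundary
condition. For large `N` the recursion is `u' = -1` in the logarithmic scale (in units of
`2πσβ/N`), hence the isotropy scale is `exp ((2πσ + ε) β / N)`. Beyond this scale the influence of
the boundary decays with an arbitrarily large power if `β ≤ δ N²`, and a finite size criterion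
applies.
-/

set_option autoImplicit false

noncomputable section

namespace Pool.Agent.Results.MP_8be4c0_mp.LargeNSharpMass

open MeasureTheory Pool.Agent.H5R2.ON Pool.Agent.H717R2.ON3 Pool.Agent.H983R2.ONJ

/-- `σ = ½ ∑_z J(z) |z|²`; it is `1` for the nearest neighbour coupling `J (±e_i) = 1/2` (the energy
is a sum over ordered pairs). -/
def sigma (J : ℤ × ℤ → ℝ) : ℝ := 1 / 2 * ∑' z : ℤ × ℤ, J z * znorm z ^ 2

/-- **Lower bound for the mass with the sharp constant `2πσ` in the exponent.** Let `J` be any
ferromagnetic, exponentially decaying coupling on `ℤ²` and `ε > 0`. There are `K` and `δ > 0` such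
that for all `N ≥ 3` and all `β > 0` with `β ≤ δ N²` the following holds for
`m = exp (-((2πσ + ε) β / N + K (1 + log (1 + log N))))`: the spin correlations on every torus and
in every infinite volume limit decay at rate `m`, the susceptibility of every such limit is at most
`e⁸ / m²`, and its mass is at least `m`. -/
theorem result (J : ℤ × ℤ → ℝ) (hJ : Admissible J) (ε : ℝ) (hε : 0 < ε) :
    ∃ K δ : ℝ, 0 < K ∧ 0 < δ ∧ ∀ N : ℕ, 3 ≤ N → ∀ β : ℝ, 0 < β → β ≤ δ * (N : ℝ) ^ 2 →
      ∀ m : ℝ, m = Real.exp (-((2 * Real.pi * sigma J + ε) * (β / N) +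
        K * (1 + Real.log (1 + Real.log N)))) →
      (∀ (L : ℕ) [NeZero L] (x y : Tor L),
        |corr N L J β x y| ≤ Real.exp 2 * Real.exp (-m * tnorm (x - y))) ∧
      ∀ G : ℤ × ℤ → ℝ, IsLimitCorr N J β G →
        (∀ x, |G x| ≤ Real.exp 2 * Real.exp (-m * znorm x)) ∧
        Summable G ∧ ∑' x, G x ≤ Real.exp 8 / m ^ 2 ∧
        ∀ μ : ℝ, (∀ n : ℕ, 0 < G (n, 0)) →
          Filter.Tendsto (fun n : ℕ => -(1 / (n : ℝ)) * Real.log (G (n, 0))) Filter.atTop
            (nhds μ) → m ≤ μ :=
  Pool.Agent.H12.SH.sharp_main J hJ ε hε

end Pool.Agent.Results.MP_8be4c0_mp.LargeNSharpMass
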