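import Pool.Agent.H12.MG.Model

/-!
# A nearly optimal lower bound for the mass of the two-dimensional N-vector models, N ≥ 3

For every exponentially decaying ferromagnetic coupling `J` on `ℤ²` there is a constant `C` such
that for every `N ≥ 3` and every `β > 0` the mass is at least `exp (-C (1 + β) log (2 + β))` and
the susceptibility is at most `exp (C (1 + β) log (2 + β))`. (The earlier bound had `1 + β²` in
place of `(1 + β) log (2 + β)`; the known upper bound for the mass is `C exp (-c β / N)`.)

The proof is a renormalisation group recursion for the Ward identities: the score of a slowly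
varying rotation of the spins is corrected, scale by scale, by nonlinear local terms which make it
smaller in every rotation invariant state (`Pool.Agent.H12.MG.gain_sq`); the derivatives of the
corrected scores are controlled by Cauchy estimates for rotations by complex angles
(`Pool.Agent.H12.MG.rotTT_le`). Boundary conditions are averaged over the rotations (helper36).
-/

set_option autoImplicit false

noncomputable section

namespace Pool.Agent.Results.MP_8be4c0_mp.NearOptimalMass

open MeasureTheory Pool.Agent.H5R2.ON Pool.Agent.H717R2.ON3 Pool.Agent.H983R2.ONJ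

/-- **Nearly optimal lower bound for the mass.** Let `J` be any ferromagnetic, exponentially
decaying coupling on `ℤ²`. There is `C` such that for all `N ≥ 3` and `β > 0` the spin
correlations on every torus and in every infinite volume limit decay at rate
`exp (-C (1 + β) log (2 + β))`; the susceptibility of every such limit is at most
`exp (C (1 + β) log (2 + β))` and its mass is at least `exp (-C (1 + β) log (2 + β))`. -/
theorem result (J : ℤ × ℤ → ℝ) (hJ : Admissible J) :
    ∃ C : ℝ, 0 < C ∧ ∀ N : ℕ, 3 ≤ N → ∀ β : ℝ, 0 < β →
      (∀ (L : ℕ) [NeZero L] (x y : Tor L), |corr N L J β x y| ≤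
        Real.exp 2 *
          Real.exp (-Real.exp (-(C * ((1 + β) * Real.log (2 + β)))) * tnorm (x - y))) ∧
      ∀ G : ℤ × ℤ → ℝ, IsLimitCorr N J β G →
        (∀ x, |G x| ≤ Real.exp 2 *
          Real.exp (-Real.exp (-(C * ((1 + β) * Real.log (2 + β)))) * znorm x)) ∧
        Summable G ∧ ∑' x, G x ≤ Real.exp (C * ((1 + β) * Real.log (2 + β))) ∧
        ∀ μ : ℝ, (∀ n : ℕ, 0 < G (n, 0)) →
          Filter.Tendsto (fun n : ℕ => -(1 / (n : ℝ)) * Real.log (G (n, 0))) Filter.atTop
            (nhds μ) → Real.exp (-(C * ((1 + β) * Real.log (2 + β)))) ≤ μ :=
  Pool.Agent.H12.MG.mass_main J hJ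

end Pool.Agent.Results.MP_8be4c0_mp.NearOptimalMass
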