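import Pool.Agent.H12.SH.StD

/-!
# The two-point function of the two-dimensional N-vector models at all distances

Uniform one-loop bounds: for every `ε > 0` there is a `K` such that for ALL `N ≥ 3` and all
`β ≥ K N (1 + log (1 + log N))` the two point function is at most `exp (-H) + ε` at all distances
`|z| ≥ exp (2πσβ X)`, `σ = ½ ∑ J(z)|z|²`, where `H = (N-1) X + (N-1)(N-2) X²/2 + O(X³)` are
explicit functions of a parameter. To second order this is the formal one-loop renormalisation group
value `(1 - (N-2) x)^((N-1)/(N-2))`; the McBryan-Spencer bound gives `exp (-x)` at this distance. For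
`N ≥ K` the two point function is at most `max (0, 1 - N log |z| / (2πσβ)) + ε` at all distances; for
reflection positive couplings infrared bounds give the matching lower bound.

Proof: Ward identities for the vector of the scores of the rotations `(i, k)`, `k ≠ i`, with
logarithmic profiles of optimal energy (lattice point counting gives the constant `2π`), together
with the Cauchy-Schwarz inequality for variances and the Markov property give recursions for the
first and second moments of the spin in the centre of a ball, uniformly in the boundary condition.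
In the limit of infinitesimal steps in the logarithmic scale they become the flow `X`, `H` below. The
two point function is bounded by the product of the influences of the boundary conditions of two
disjoint balls. For large `N` the recursion for the second moments is run with a number of steps
that does not depend on `N`, after a first stage of `1 + log (1 + log N)` doublings.
-/

set_option autoImplicit false

noncomputable section

namespace Pool.Agent.Results.MP_8be4c0_mp.OneLoopProfile

open MeasureTheory Pool.Agent.H5R2.ON Pool.Agent.H717R2.ON3 Pool.Agent.H983R2.ONJ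

/-- `σ = ½ ∑_z J(z) |z|²`; it is `1` for the nearest neighbour coupling `J (±e_i) = 1/2` (the energy
is a sum over ordered pairs). -/
def sigma (J : ℤ × ℤ → ℝ) : ℝ := 1 / 2 * ∑' z : ℤ × ℤ, J z * znorm z ^ 2

/-- the logarithmic scale (in units of `2πσβ`) as a function of the parameter `w ∈ (0, N-1]`;
`X N (N-1) = 0` -/
def X (N : ℕ) (w : ℝ) : ℝ :=
  (((N : ℝ) - 2) * ((N : ℝ) - 1 - w) + (3 * (N : ℝ) - 4) * Real.log (((N : ℝ) - 1) / w) +
    (2 * (N : ℝ) - 2) * (1 / w - 1 / ((N : ℝ) - 1))) / (N : ℝ) ^ 3

/-- the exponent of the two point function as a function of the parameter `w ∈ (0, N-1]`;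
`H N (N-1) = 0` -/
def H (N : ℕ) (w : ℝ) : ℝ :=
  ((N : ℝ) - 1) ^ 2 / (N : ℝ) ^ 2 *
    (Real.log (((N : ℝ) - 1) / w) + (1 / w - 1 / ((N : ℝ) - 1)))

/-- **The two point function at all distances.** The functions `X N`, `H N` on `(0, N-1]`: `X N` takes
every value in `[0, ∞)`, and `H ≥ (N-1) X`, `H ≥ (N-1) X + (N-1)(N-2) X²/2 - N(3N-2)(N-1)(N-2)/6 X³`.
Let `J` be any ferromagnetic, exponentially decaying coupling on `ℤ²` with `σ > 0` (that is, not
zero off the origin) and `ε > 0`. There is `K` such that for all `N ≥ 3` and all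
`β ≥ K N (1 + log (1 + log N))`, on every torus and in every infinite volume limit:
* for all `w ∈ (0, N-1]` the two point function is at most `exp (-H N w) + ε` at all distances at
  least `exp (2πσβ X N w)`;
* if `N ≥ K`, the two point function at distance `r > 0` is at most
  `max (0, 1 - N log r / (2πσβ)) + ε`. -/
theorem result (J : ℤ × ℤ → ℝ) (hJ : Admissible J) (hσ : 0 < sigma J) (ε : ℝ) (hε : 0 < ε) :
    (∀ N : ℕ, 3 ≤ N →
      (∀ x : ℝ, 0 ≤ x → ∃ w : ℝ, 0 < w ∧ w ≤ (N : ℝ) - 1 ∧ X N w = x) ∧
      ∀ w : ℝ, 0 < w → w ≤ (N : ℝ) - 1 →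
        ((N : ℝ) - 1) * X N w ≤ H N w ∧
        ((N : ℝ) - 1) * X N w + ((N : ℝ) - 1) * ((N : ℝ) - 2) / 2 * X N w ^ 2 -
          ((N : ℝ) * (3 * N - 2) * ((N : ℝ) - 1) * ((N : ℝ) - 2) / 6) * X N w ^ 3 ≤ H N w) ∧
    ∃ K : ℝ, 1 ≤ K ∧ ∀ N : ℕ, 3 ≤ N → ∀ β : ℝ,
      K * (N * (1 + Real.log (1 + Real.log N))) ≤ β →
      (∀ w : ℝ, 0 < w → w ≤ (N : ℝ) - 1 →
        (∀ (L : ℕ) [NeZero L] (y z : Tor L),
          Real.exp (2 * Real.pi * sigma J * β * X N w) ≤ tnorm (y - z) →
          |corr N L J β y z| ≤ Real.exp (-(H N w)) + ε) ∧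
        ∀ G : ℤ × ℤ → ℝ, IsLimitCorr N J β G → ∀ z : ℤ × ℤ,
          Real.exp (2 * Real.pi * sigma J * β * X N w) ≤ znorm z →
          |G z| ≤ Real.exp (-(H N w)) + ε) ∧
      (K ≤ N →
        (∀ (L : ℕ) [NeZero L] (y z : Tor L), 0 < tnorm (y - z) →
          |corr N L J β y z| ≤
            max 0 (1 - N * Real.log (tnorm (y - z)) / (2 * Real.pi * sigma J * β)) + ε) ∧
        ∀ G : ℤ × ℤ → ℝ, IsLimitCorr N J β G → ∀ z : ℤ × ℤ, 0 < znorm z →
          |G z| ≤ max 0 (1 - N * Real.log (znorm z) / (2 * Real.pi * sigma J * β)) + ε) := by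
  refine ⟨fun N hN => ⟨fun x hx => Pool.Agent.H12.OL.XX_onto (by omega : 2 ≤ N) x hx,
    fun w hw0 hwN => ⟨Pool.Agent.H12.OL.HH_first (by omega : 2 ≤ N) hw0 hwN,
      Pool.Agent.H12.OL.HH_second (by omega : 2 ≤ N) hw0 hwN⟩⟩, ?_⟩
  exact Pool.Agent.H12.SH.uni_main hJ hσ ε hε

end Pool.Agent.Results.MP_8be4c0_mp.OneLoopProfile
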